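import Pool.Agent.H83.CG.Asm

set_option autoImplicit false

open MeasureTheory Filter Topology
open scoped ENNReal

namespace Pool.Agent.Results.MP_3c0a64_an.GaugeMeasure

open Pool.Agent.NH39.CG

/-- the gauge function `h A ρ = ρ * exp (A * (log (1 / ρ)) ^ (3 / 4))` on extended nonnegative
reals; only its values at small `ρ` matter -/
noncomputable def h (A : ℝ) (d : ℝ≥0∞) : ℝ≥0∞ :=
  ENNReal.ofReal (d.toReal * Real.exp (A * Real.log (1 / d.toReal) ^ (3 / 4 : ℝ)))

lemma h_eq (A : ℝ) (d : ℝ≥0∞) : h A d = ENNReal.ofReal (gau A d.toReal) := rfl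

/-- `gau` is small at small arguments -/
lemma gau_small {A δ : ℝ} (hA : 0 < A) (hδ : 0 < δ) : ∃ η : ℝ, 0 < η ∧ η < 1 ∧ gau A η < δ := by
  set u : ℝ := max (max ((2 * A) ^ 4) 1) (2 * |Real.log δ| + 1) with hu
  have hu1 : (2 * A) ^ 4 ≤ u := (le_max_left _ _).trans (le_max_left _ _)
  have hu2 : 1 ≤ u := (le_max_right _ _).trans (le_max_left _ _)
  have hu3 : 2 * |Real.log δ| + 1 ≤ u := le_max_right _ _
  have hu0 : 0 < u := by linarith
  refine ⟨Real.exp (-u), Real.exp_pos _, ?_, ?_⟩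
  · rw [Real.exp_lt_one_iff]
    linarith
  · unfold gau
    have e1 : Real.log (1 / Real.exp (-u)) = u := by
      rw [one_div, Real.log_inv, Real.log_exp]
      ring
    rw [e1, ← Real.exp_add, ← Real.lt_log_iff_exp_lt hδ]
    obtain ⟨x, hx⟩ : ∃ x : ℝ, x = u ^ (1 / 4 : ℝ) := ⟨_, rfl⟩
    have hx0 : 0 < x := by rw [hx]; positivity
    have hx4 : x ^ 4 = u := by
      rw [hx, ← Real.rpow_natCast, ← Real.rpow_mul hu0.le]
      norm_num
    have hx3 : x ^ 3 = u ^ (3 / 4 : ℝ) := by
      rw [hx, ← Real.rpow_natCast, ← Real.rpow_mul hu0.le]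
      norm_num
    rw [← hx3]
    have hxA : 2 * A ≤ x := by
      have h1 : (2 * A) ^ 4 ≤ x ^ 4 := by rw [hx4]; exact hu1
      exact le_of_pow_le_pow_left₀ (by norm_num) hx0.le h1
    have h2 : 2 * (A * x ^ 3) ≤ u := by
      rw [← hx4]
      have h3 : 0 < x ^ 3 := by positivity
      nlinarith
    have h4 := neg_abs_le (Real.log δ)
    linarith

/-- comparison of two gauges -/
lemma gau_ratio {A M : ℝ} (hM : 0 < M) : ∃ r : ℝ, 0 < r ∧ r < 1 ∧ ∀ ρ : ℝ, 0 ≤ ρ → ρ ≤ r →
    M * gau A ρ ≤ gau (A + 1) ρ := by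
  set L : ℝ := max 1 (Real.log M) with hL
  have hL1 : 1 ≤ L := le_max_left _ _
  have hL2 : Real.log M ≤ L := le_max_right _ _
  have hL0 : 0 < L := by linarith
  set u : ℝ := L ^ (4 / 3 : ℝ) with hu
  have hu0 : 0 < u := by positivity
  refine ⟨Real.exp (-u), Real.exp_pos _, by rw [Real.exp_lt_one_iff]; linarith, ?_⟩
  intro ρ h0 h1
  rcases h0.eq_or_lt with rfl | h0
  · unfold gau
    simp
  · have h2 : u ≤ Real.log (1 / ρ) := by
      rw [one_div, Real.log_inv]
      have h3 := Real.log_le_log h0 h1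
      rw [Real.log_exp] at h3
      linarith
    have h3 : L ≤ Real.log (1 / ρ) ^ (3 / 4 : ℝ) := by
      calc L = u ^ (3 / 4 : ℝ) := by
            rw [hu, ← Real.rpow_mul hL0.le]
            norm_num
        _ ≤ _ := Real.rpow_le_rpow hu0.le h2 (by norm_num)
    unfold gau
    set v := Real.log (1 / ρ) ^ (3 / 4 : ℝ) with hv
    have h4 : M ≤ Real.exp v := by
      rw [← Real.log_le_iff_le_exp hM]
      linarith
    have h5 : Real.exp ((A + 1) * v) = Real.exp v * Real.exp (A * v) := by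
      rw [← Real.exp_add]
      congr 1
      ring
    rw [h5]
    have h6 : 0 < ρ * Real.exp (A * v) := by positivity
    calc M * (ρ * Real.exp (A * v)) ≤ Real.exp v * (ρ * Real.exp (A * v)) :=
          mul_le_mul_of_nonneg_right h4 h6.le
      _ = ρ * (Real.exp v * Real.exp (A * v)) := by ring

theorem result : ∃ A : ℝ, 0 < A ∧ ∀ B E : Set ℝ, volume E ≠ 0 →
    (∀ x ∈ E, ∃ r : ℝ, 0 < r ∧ ∀ c ∈ cantorSet, x + r * (c - 1 / 2) ∈ B) →
    Measure.mkMetric (h A) B = ⊤ := by
  obtain ⟨A, hA, hmain⟩ := Pool.Agent.H83.CG.posGauge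
  refine ⟨A + 1, by linarith, ?_⟩
  intro B E hE hB
  obtain ⟨ε, hε, hcov⟩ := hmain B E hE hB
  refine ENNReal.eq_top_of_forall_nnreal_le fun M => ?_
  -- the comparison radius
  obtain ⟨r, hr0, hr1, hr⟩ := gau_ratio (A := A) (M := 2 * (M + 1) / ε) (by positivity)
  obtain ⟨δ, hδ0, hδs⟩ := ENNReal.exists_pos_sum_of_countable
    (ε := ENNReal.ofReal (ε / 2)) (by
      rw [Ne, ENNReal.ofReal_eq_zero, not_le]
      positivity) ℕ
  have hη : ∀ n : ℕ, ∃ η : ℝ, 0 < η ∧ η < 1 ∧ gau A η < δ n := fun n =>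
    gau_small hA (by exact_mod_cast hδ0 n)
  choose η hη0 hη1 hη2 using hη
  rw [Measure.mkMetric_apply]
  refine le_trans ?_ (le_iSup₂ (ENNReal.ofReal r) (by
    rw [ENNReal.ofReal_pos]; exact hr0))
  refine le_trans (b := (M : ℝ≥0∞) + 1) le_self_add ?_
  refine le_iInf fun t => le_iInf fun htB => le_iInf fun htd => ?_
  -- the intervals
  have hfin : ∀ n, Metric.ediam (t n) ≠ ⊤ := fun n =>
    ne_top_of_le_ne_top ENNReal.ofReal_ne_top (htd n)
  set d : ℕ → ℝ := fun n => (Metric.ediam (t n)).toReal with hd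
  have hd0 : ∀ n, 0 ≤ d n := fun n => ENNReal.toReal_nonneg
  have hdr : ∀ n, d n ≤ r := fun n => ENNReal.toReal_le_of_le_ofReal hr0.le (htd n)
  have hint : ∀ n, ∃ a : ℝ, t n ⊆ Set.Icc a (a + d n) := by
    intro n
    have hb : Bornology.IsBounded (t n) := Metric.isBounded_iff_ediam_ne_top.2 (hfin n)
    refine ⟨sInf (t n), ?_⟩
    intro y hy
    have hbb := hb.bddBelow
    refine ⟨csInf_le hbb hy, ?_⟩
    have : y - d n ≤ sInf (t n) := by
      refine le_csInf ⟨y, hy⟩ fun z hz => ?_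
      have h1 := Metric.dist_le_diam_of_mem hb hy hz
      have h2 : Metric.diam (t n) = d n := rfl
      rw [h2, Real.dist_eq] at h1
      have h3 := le_abs_self (y - z)
      linarith
    linarith
  choose a ha using hint
  have hcov2 := hcov a (fun n => max (d n) (η n))
    (fun n => ⟨lt_of_lt_of_le (hη0 n) (le_max_right _ _),
      max_lt ((hdr n).trans_lt hr1) (hη1 n)⟩)
    (by
      refine htB.trans (Set.iUnion_mono fun n => ?_)
      refine (ha n).trans (Set.Icc_subset_Icc_right ?_)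
      have := le_max_left (d n) (η n)
      linarith)
  have hgd : ∀ n, 0 ≤ gau A (d n) := fun n => by
    unfold gau
    exact mul_nonneg (hd0 n) (Real.exp_pos _).le
  -- comparison, sets of positive diameter are nonempty
  have hterm : ∀ n, ENNReal.ofReal (gau A (max (d n) (η n))) ≤
      ENNReal.ofReal (ε / (2 * (M + 1))) * (⨆ _ : (t n).Nonempty, h (A + 1) (Metric.ediam (t n)))
        + δ n := by
    intro n
    have hb1 : ENNReal.ofReal (gau A (η n)) ≤ (δ n : ℝ≥0∞) := by
      rw [ENNReal.ofReal_le_iff_le_toReal ENNReal.coe_ne_top]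
      simpa using (hη2 n).le
    have hb2 : ENNReal.ofReal (gau A (d n)) ≤
        ENNReal.ofReal (ε / (2 * (M + 1))) *
          (⨆ _ : (t n).Nonempty, h (A + 1) (Metric.ediam (t n))) := by
      rcases Set.eq_empty_or_nonempty (t n) with he | hne
      · have : d n = 0 := by
          rw [hd]
          simp [he]
        rw [this]
        unfold gau
        simp
      · rw [iSup_pos hne, h_eq, ← ENNReal.ofReal_mul (by positivity)]
        apply ENNReal.ofReal_le_ofReal
        have h1 := hr (d n) (hd0 n) (hdr n)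
        have h2 : (Metric.ediam (t n)).toReal = d n := rfl
        rw [h2]
        calc gau A (d n) = ε / (2 * (M + 1)) * (2 * (M + 1) / ε * gau A (d n)) := by
              field_simp
          _ ≤ _ := mul_le_mul_of_nonneg_left h1 (by positivity)
    rcases le_total (d n) (η n) with hle | hle
    · rw [max_eq_right hle]
      exact hb1.trans le_add_self
    · rw [max_eq_left hle]
      exact hb2.trans le_self_add
  have hsum := hcov2.trans (ENNReal.tsum_le_tsum hterm)
  rw [ENNReal.tsum_add, ENNReal.tsum_mul_left] at hsum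
  set S : ℝ≥0∞ := ∑' n, ⨆ _ : (t n).Nonempty, h (A + 1) (Metric.ediam (t n)) with hS
  -- conclusion
  by_contra hcon
  rw [not_le] at hcon
  have hM1 : (0 : ℝ) < M + 1 := by positivity
  have h1 : ENNReal.ofReal (ε / (2 * (M + 1))) * S ≤ ENNReal.ofReal (ε / 2) := by
    calc ENNReal.ofReal (ε / (2 * (M + 1))) * S
        ≤ ENNReal.ofReal (ε / (2 * (M + 1))) * ((M : ℝ≥0∞) + 1) := by gcongr
      _ = ENNReal.ofReal (ε / (2 * (M + 1))) * ENNReal.ofReal (M + 1) := by
          congr 1
          rw [ENNReal.ofReal_add (by positivity) zero_le_one]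
          simp
      _ = ENNReal.ofReal (ε / 2) := by
          rw [← ENNReal.ofReal_mul (by positivity)]
          congr 1
          field_simp
  have h2 : ENNReal.ofReal (ε / (2 * (M + 1))) * S + ∑' n, (δ n : ℝ≥0∞) <
      ENNReal.ofReal (ε / 2) + ENNReal.ofReal (ε / 2) :=
    ENNReal.add_lt_add_of_le_of_lt (ne_top_of_le_ne_top ENNReal.ofReal_ne_top h1) h1 hδs
  rw [← ENNReal.ofReal_add (by positivity) (by positivity), add_halves] at h2
  exact absurd (hsum.trans_lt h2) (lt_irrefl _)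

end Pool.Agent.Results.MP_3c0a64_an.GaugeMeasure
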